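import Mathlib

/-!
# MP_85199e_an: trigonometric series with prescribed amplitudes and large partial sums everywhere

Let `ρ` be nonincreasing and let `K > 0` be nondecreasing with `∑ ρ n ^ 2 / K n ^ 2 = ∞`.  There are
phases such that the partial sums `S_N(x)` of the trigonometric series with amplitudes `ρ n` satisfy
`limsup |S_N(x)| / K N = ∞` at EVERY real `x`.  With `K = 1` the series is everywhere unboundedly
divergent as soon as `∑ ρ n ^ 2 = ∞`; with `K N` the `L²` norm of `S_N` one gets that at every point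
the partial sums exceed every multiple of their `L²` norm infinitely often.

Proof idea.  The frequencies are divided into blocks of length `2 m`, `m = ⌈w / ρ⌉`, where `w` is a
nondecreasing majorant of `K`, a little larger than `K`.  The first half of a block is
`∑ ρ n cos (n (x + β))`, the second half `- ∑ ρ n sin (n (x + β))`, where the shift `β` of the block
grows by `ρ / (32 w)` from block to block.  A point `x` with `|x + β| ≤ ρ / (32 w)` modulo `2 π`
sees a change of size `w / 4` of the partial sums in this block.  Since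
`∑ ρ ^ 2 / w ^ 2 = ∞`, the shifts tend to infinity although they are stopped in the blocks in which
`ρ` or `1 / w` drops by a factor of two, and so every point is met infinitely often.
-/

open Filter Topology Finset

namespace Pool.Agent.Results.MP_85199e_an.LargePartialSums

/-- Partial sums `S_N(x)` of the trigonometric series with coefficients `a n`, `b n`, `n ≥ 1`. -/
noncomputable def partialSum (a b : ℕ → ℝ) (N : ℕ) (x : ℝ) : ℝ :=
  ∑ n ∈ Finset.Icc 1 N, (a n * Real.cos (n * x) + b n * Real.sin (n * x))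

section Construction

variable (r w : ℕ → ℝ)

/-- half-length of the block starting at `s` -/
noncomputable def M (s : ℕ) : ℕ := ⌈w s / r s⌉₊

/-- starting points of the blocks -/
noncomputable def st : ℕ → ℕ
  | 0 => 1
  | i + 1 => st i + 2 * M r w (st i)

/-- the good blocks -/
def Good (i : ℕ) : Prop :=
  r (st r w i) / 2 ≤ r (st r w (i + 1)) ∧ w (st r w (i + 1)) ≤ 2 * w (st r w i)

open scoped Classical in
/-- frequency shifts -/
noncomputable def bt : ℕ → ℝ
  | 0 => 0
  | i + 1 => bt i + if Good r w i then r (st r w i) / (32 * w (st r w i)) else 0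

variable {r w}

/-- the assumptions on the regularised amplitudes `r` and the weights `w` -/
structure Adm (r w : ℕ → ℝ) : Prop where
  hr : ∀ n, 0 < r n
  hr1 : ∀ n, r n ≤ 1
  hanti : Antitone r
  hw1 : ∀ n, 1 ≤ w n
  hwm : Monotone w

theorem Adm.w_pos (h : Adm r w) (n : ℕ) : 0 < w n := lt_of_lt_of_le one_pos (h.hw1 n)

theorem M_pos (h : Adm r w) (s : ℕ) : 0 < M r w s :=
  Nat.ceil_pos.2 (div_pos (h.w_pos s) (h.hr s))

theorem w_le_M_mul (h : Adm r w) (s : ℕ) : w s ≤ M r w s * r s := by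
  have h1 := Nat.le_ceil (w s / r s)
  rwa [div_le_iff₀ (h.hr s)] at h1

theorem M_mul_le (h : Adm r w) (s : ℕ) : M r w s * r s ≤ 2 * w s := by
  have h1 : (M r w s : ℝ) < w s / r s + 1 :=
    Nat.ceil_lt_add_one (div_pos (h.w_pos s) (h.hr s)).le
  have h2 := mul_lt_mul_of_pos_right h1 (h.hr s)
  rw [add_mul, div_mul_cancel₀ _ (h.hr s).ne', one_mul] at h2
  linarith [h.hr1 s, h.hw1 s]

theorem st_lt (h : Adm r w) (i : ℕ) : st r w i < st r w (i + 1) := by
  have h1 := M_pos h (st r w i)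
  change st r w i < st r w i + 2 * M r w (st r w i)
  omega

theorem st_strictMono (h : Adm r w) : StrictMono (st r w) :=
  strictMono_nat_of_lt_succ (st_lt h)

theorem one_le_st (h : Adm r w) (i : ℕ) : 1 ≤ st r w i := by
  have := (st_strictMono h).monotone (Nat.zero_le i)
  exact this

theorem lt_st (h : Adm r w) (i : ℕ) : i < st r w i := by
  induction i with
  | zero => exact Nat.one_pos
  | succ j ih => exact lt_of_le_of_lt ih (st_lt h j)

theorem exists_idx (h : Adm r w) (n : ℕ) : ∃ i, n < st r w (i + 1) :=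
  ⟨n, (Nat.lt_succ_self n).trans_le ((st_strictMono h).id_le (n + 1))⟩

open scoped Classical in
/-- index of the block containing `n` -/
noncomputable def idx (r w : ℕ → ℝ) (n : ℕ) : ℕ :=
  if h : ∃ i, n < st r w (i + 1) then Nat.find h else 0

theorem idx_eq (h : Adm r w) {n i : ℕ} (h1 : st r w i ≤ n) (h2 : n < st r w (i + 1)) :
    idx r w n = i := by
  classical
  unfold idx
  rw [dif_pos (exists_idx h n), Nat.find_eq_iff]
  refine ⟨h2, fun j hj => not_lt.2 (le_trans ?_ h1)⟩
  exact (st_strictMono h).monotone hj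

open scoped Classical in
/-- the phases -/
noncomputable def th (r w : ℕ → ℝ) (n : ℕ) : ℝ :=
  bt r w (idx r w n) * n +
    if n < st r w (idx r w n) + M r w (st r w (idx r w n)) then 0 else Real.pi / 2

theorem bt_le (h : Adm r w) (i : ℕ) : bt r w i ≤ bt r w (i + 1) := by
  classical
  change bt r w i ≤ bt r w i + if Good r w i then r (st r w i) / (32 * w (st r w i)) else 0
  have h1 : 0 < r (st r w i) / (32 * w (st r w i)) :=
    div_pos (h.hr _) (by linarith [h.w_pos (st r w i)])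
  split_ifs <;> linarith

theorem bt_mono (h : Adm r w) : Monotone (bt r w) :=
  monotone_nat_of_le_succ (bt_le h)

theorem step_le (h : Adm r w) (i : ℕ) :
    r (st r w i) / w (st r w i) ≤ 32 * (bt r w (i + 1) - bt r w i) +
      2 * (r (st r w i) - r (st r w (i + 1))) +
      2 * (1 / w (st r w i) - 1 / w (st r w (i + 1))) := by
  classical
  have h1 : bt r w (i + 1) = bt r w i +
      if Good r w i then r (st r w i) / (32 * w (st r w i)) else 0 := rfl
  have h2 : r (st r w (i + 1)) ≤ r (st r w i) := h.hanti (st_lt h i).le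
  have h3 : w (st r w i) ≤ w (st r w (i + 1)) := h.hwm (st_lt h i).le
  have hw0 := h.w_pos (st r w i)
  have h4 : 1 / w (st r w (i + 1)) ≤ 1 / w (st r w i) := one_div_le_one_div_of_le hw0 h3
  have hr0 := h.hr (st r w i)
  rw [h1]
  split_ifs with hg
  · have e : r (st r w i) / (32 * w (st r w i)) = r (st r w i) / w (st r w i) / 32 := by
      field_simp
    rw [e]
    linarith
  · unfold Good at hg
    rw [not_and_or, not_le, not_le] at hg
    rcases hg with hg | hg
    · have h5 : r (st r w i) / w (st r w i) ≤ r (st r w i) :=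
        div_le_self hr0.le (h.hw1 _)
      linarith
    · have h5 : r (st r w i) / w (st r w i) ≤ 1 / w (st r w i) :=
        div_le_div_of_nonneg_right (h.hr1 _) hw0.le
      have h6 : 1 / w (st r w (i + 1)) ≤ 1 / (2 * w (st r w i)) :=
        one_div_le_one_div_of_le (by linarith) hg.le
      have h7 : 1 / (2 * w (st r w i)) = 1 / w (st r w i) / 2 := by
        field_simp
      rw [h7] at h6
      linarith

theorem sum_block (h : Adm r w) (i : ℕ) :
    ∑ n ∈ Finset.Ico (st r w i) (st r w (i + 1)), r n ^ 2 / w n ^ 2 ≤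
      4 * (r (st r w i) / w (st r w i)) := by
  set s := st r w i with hs
  have hw0 := h.w_pos s
  have hr0 := h.hr s
  calc ∑ n ∈ Finset.Ico s (st r w (i + 1)), r n ^ 2 / w n ^ 2
      ≤ ∑ n ∈ Finset.Ico s (st r w (i + 1)), r s ^ 2 / w s ^ 2 := by
        refine Finset.sum_le_sum fun n hn => ?_
        have hsn := (Finset.mem_Ico.1 hn).1
        exact div_le_div₀ (sq_nonneg _) (pow_le_pow_left₀ (h.hr n).le (h.hanti hsn) 2)
          (by positivity) (pow_le_pow_left₀ hw0.le (h.hwm hsn) 2)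
    _ = 2 * (M r w s * r s) * r s / w s ^ 2 := by
        rw [Finset.sum_const, Nat.card_Ico, nsmul_eq_mul]
        have : st r w (i + 1) - s = 2 * M r w s := by
          change s + 2 * M r w s - s = _
          omega
        rw [this]
        push_cast
        ring
    _ ≤ 2 * (2 * w s) * r s / w s ^ 2 := by
        have := M_mul_le h s
        gcongr
    _ = 4 * (r s / w s) := by
        field_simp
        ring

theorem sum_le (h : Adm r w) (N : ℕ) :
    ∑ n ∈ Finset.Ico 1 (st r w N), r n ^ 2 / w n ^ 2 ≤ 128 * bt r w N + 16 := by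
  have key : ∀ N, ∑ n ∈ Finset.Ico 1 (st r w N), r n ^ 2 / w n ^ 2
      ≤ 128 * (bt r w N - bt r w 0) + 8 * (r (st r w 0) - r (st r w N)) +
        8 * (1 / w (st r w 0) - 1 / w (st r w N)) := by
    intro N
    induction N with
    | zero =>
      change ∑ n ∈ Finset.Ico 1 1, r n ^ 2 / w n ^ 2 ≤ _
      simp
    | succ N ih =>
      rw [← Finset.sum_Ico_consecutive _ (one_le_st h N) (st_lt h N).le]
      have h2 := sum_block h N
      have h3 := step_le h N
      linarith
  have h1 := key N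
  have h0 : bt r w 0 = 0 := rfl
  have h2 := h.hr1 (st r w 0)
  have h3 := h.hr (st r w N)
  have h4 : 1 / w (st r w 0) ≤ 1 := by
    rw [div_le_one (h.w_pos _)]
    exact h.hw1 _
  have h5 : 0 < 1 / w (st r w N) := one_div_pos.2 (h.w_pos _)
  rw [h0] at h1
  linarith

theorem bt_unbounded (h : Adm r w) (hns : ¬ Summable fun n => r n ^ 2 / w n ^ 2) (B : ℝ) :
    ∃ N, B < bt r w N := by
  by_contra hcon
  push Not at hcon
  refine hns ?_
  refine summable_of_sum_range_le (c := 1 + (128 * B + 16)) (fun n => by positivity) fun n => ?_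
  have h1 : n ≤ st r w n := (st_strictMono h).id_le n
  have h2 : ∑ i ∈ Finset.range n, r i ^ 2 / w i ^ 2 ≤
      ∑ i ∈ Finset.range (st r w n), r i ^ 2 / w i ^ 2 :=
    Finset.sum_le_sum_of_subset_of_nonneg (Finset.range_mono h1) fun _ _ _ => by positivity
  have h4 : ∑ i ∈ Finset.range (st r w n), r i ^ 2 / w i ^ 2 =
      ∑ i ∈ Finset.range 1, r i ^ 2 / w i ^ 2
      + ∑ i ∈ Finset.Ico 1 (st r w n), r i ^ 2 / w i ^ 2 :=
    (Finset.sum_range_add_sum_Ico _ (one_le_st h n)).symm
  have h5 := sum_le h n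
  have h6 := hcon n
  have h7 : r 0 ^ 2 / w 0 ^ 2 ≤ 1 := by
    rw [div_le_one (pow_pos (h.w_pos 0) 2)]
    exact pow_le_pow_left₀ (h.hr 0).le ((h.hr1 0).trans (h.hw1 0)) 2
  rw [h4, Finset.sum_range_one] at h2
  linarith

/-- every large real number is reached in a good block -/
theorem exists_block (h : Adm r w) (hns : ¬ Summable fun n => r n ^ 2 / w n ^ 2)
    {y : ℝ} (hy : 0 ≤ y) : ∃ i, bt r w i ≤ y ∧ y < bt r w (i + 1) := by
  classical
  have hex : ∃ i, y < bt r w (i + 1) := by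
    obtain ⟨N, hN⟩ := bt_unbounded h hns y
    exact ⟨N, hN.trans_le (bt_le h N)⟩
  refine ⟨Nat.find hex, ?_, Nat.find_spec hex⟩
  by_contra hcon
  push Not at hcon
  cases hf : Nat.find hex with
  | zero =>
    rw [hf] at hcon
    have h0 : bt r w 0 = 0 := rfl
    rw [h0] at hcon
    linarith
  | succ j =>
    rw [hf] at hcon
    exact Nat.find_min hex (by omega : j < Nat.find hex) hcon

end Construction

/-- lower bound for sums over half blocks -/
theorem half_block {ρ : ℕ → ℝ} {u v : ℕ} {c : ℝ} {g : ℕ → ℝ} (hρ : ∀ n, 0 ≤ ρ n)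
    (hc : 7 / 10 ≤ |c|) (hg : ∀ n ∈ Finset.Ico u v, |g n - c| ≤ 1 / 8)
    {q : ℝ} (hq : ∀ n ∈ Finset.Ico u v, q ≤ ρ n) :
    (1 / 2 : ℝ) * ((v - u : ℕ) * q) ≤ |∑ n ∈ Finset.Ico u v, ρ n * g n| := by
  have hcard : ∑ n ∈ Finset.Ico u v, q = (v - u : ℕ) * q := by
    rw [Finset.sum_const, Nat.card_Ico, nsmul_eq_mul]
  have h1 : (1 / 2 : ℝ) * ((v - u : ℕ) * q) ≤ ∑ n ∈ Finset.Ico u v, ρ n * (1 / 2) := by
    rw [← hcard, Finset.mul_sum]
    refine Finset.sum_le_sum fun n hn => ?_
    linarith [hq n hn]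
  rcases le_or_gt 0 c with h0 | h0
  · rw [abs_of_nonneg h0] at hc
    refine h1.trans (le_trans ?_ (le_abs_self _))
    refine Finset.sum_le_sum fun n hn => ?_
    have := abs_le.1 (hg n hn)
    exact mul_le_mul_of_nonneg_left (by linarith [this.1]) (hρ n)
  · rw [abs_of_neg h0] at hc
    refine h1.trans (le_trans ?_ (neg_le_abs _))
    rw [← Finset.sum_neg_distrib]
    refine Finset.sum_le_sum fun n hn => ?_
    have := abs_le.1 (hg n hn)
    rw [← mul_neg]
    exact mul_le_mul_of_nonneg_left (by linarith [this.2]) (hρ n)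

theorem one_big (ψ : ℝ) : 7 / 10 ≤ |Real.cos ψ| ∨ 7 / 10 ≤ |Real.sin ψ| := by
  by_contra hcon
  push Not at hcon
  have h := Real.sin_sq_add_cos_sq ψ
  have h1 : Real.cos ψ ^ 2 < (7 / 10) ^ 2 := by
    rw [← sq_abs]
    exact pow_lt_pow_left₀ hcon.1 (abs_nonneg _) two_ne_zero
  have h2 : Real.sin ψ ^ 2 < (7 / 10) ^ 2 := by
    rw [← sq_abs]
    exact pow_lt_pow_left₀ hcon.2 (abs_nonneg _) two_ne_zero
  norm_num at h1 h2
  linarith

/-- The partial sums are infinitely often at least `w N / 16`, at every point. -/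
theorem large {ρ r w : ℕ → ℝ} (hρ : ∀ n, 0 ≤ ρ n) (hrρ : ∀ n, r n ≤ ρ n) (h : Adm r w)
    (hns : ¬ Summable fun n => r n ^ 2 / w n ^ 2) (x : ℝ) (N₀ : ℕ) :
    ∃ N ≥ N₀, w N / 16 ≤ |∑ n ∈ Finset.Icc 1 N, ρ n * Real.cos (n * x + th r w n)| := by
  classical
  -- choose k large
  obtain ⟨k, hk⟩ := exists_nat_gt ((bt r w N₀ + |x|) / (2 * Real.pi))
  have hpi : 0 < 2 * Real.pi := by positivity
  have hk2 : bt r w N₀ + |x| < 2 * Real.pi * k := by
    rw [div_lt_iff₀ hpi] at hk
    linarith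
  have hbt0 : 0 ≤ bt r w N₀ := by
    have := bt_mono h (Nat.zero_le N₀)
    exact this
  have hxle := abs_le.1 (le_refl |x|)
  obtain ⟨i, hi1, hi2⟩ := exists_block h hns (y := 2 * Real.pi * k - x)
    (by linarith [hxle.2])
  -- the block is late
  have hiN : N₀ ≤ i := by
    by_contra hcon
    push Not at hcon
    have h1 : bt r w (i + 1) ≤ bt r w N₀ := bt_mono h hcon
    linarith [hxle.2]
  -- the block is good
  have hstep : bt r w (i + 1) = bt r w i +
      if Good r w i then r (st r w i) / (32 * w (st r w i)) else 0 := rfl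
  have hgood : Good r w i := by
    by_contra hcon
    rw [if_neg hcon, add_zero] at hstep
    linarith
  rw [if_pos hgood] at hstep
  obtain ⟨hg1, hg2⟩ := hgood
  have his : i < st r w i := lt_st h i
  have hs1 : 1 ≤ st r w i := one_le_st h i
  set s := st r w i with hs
  set m := M r w s with hm
  have hs' : st r w (i + 1) = s + 2 * m := rfl
  have hmpos : 0 < m := M_pos h s
  have hsN : N₀ ≤ s - 1 := by omega
  have hws := h.w_pos s
  have hrs := h.hr s
  set y : ℝ := x + bt r w i - 2 * Real.pi * k with hy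
  have hy1 : |y| ≤ r s / (32 * w s) := by
    rw [abs_le]
    constructor <;> linarith
  -- terms in the block
  have hidx : ∀ n ∈ Finset.Ico s (s + 2 * m), idx r w n = i := fun n hn =>
    idx_eq h (Finset.mem_Ico.1 hn).1 (Finset.mem_Ico.1 hn).2
  have hphase : ∀ n : ℕ, (n : ℝ) * x + bt r w i * n = n * y + (k * n : ℕ) * (2 * Real.pi) := by
    intro n
    rw [hy]
    push_cast
    ring
  have hmr2 := M_mul_le h s
  have hclose : ∀ n ∈ Finset.Ico s (s + 2 * m), |(n : ℝ) * y - s * y| ≤ 1 / 8 := by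
    intro n hn
    obtain ⟨h1, h2⟩ := Finset.mem_Ico.1 hn
    rw [← sub_mul, abs_mul]
    have h3 : |(n : ℝ) - s| ≤ 2 * m := by
      have h4 : (s : ℝ) ≤ n := by exact_mod_cast h1
      have h5 : (n : ℝ) < s + 2 * m := by exact_mod_cast h2
      rw [abs_of_nonneg (by linarith)]
      linarith
    calc |(n : ℝ) - s| * |y| ≤ 2 * m * (r s / (32 * w s)) :=
          mul_le_mul h3 hy1 (abs_nonneg _) (by positivity)
      _ = (m * r s) / (16 * w s) := by
          field_simp
          ring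
      _ ≤ (2 * w s) / (16 * w s) := by gcongr
      _ = 1 / 8 := by
          field_simp
          norm_num
  have hlow : ∀ n ∈ Finset.Ico s (s + 2 * m), r s / 2 ≤ ρ n := by
    intro n hn
    refine hg1.trans (le_trans ?_ (hrρ n))
    rw [hs']
    exact h.hanti (Finset.mem_Ico.1 hn).2.le
  have hmr : w s ≤ m * r s := w_le_M_mul h s
  -- first half
  have hsum1 : ∑ n ∈ Finset.Ico s (s + m), ρ n * Real.cos (n * x + th r w n)
      = ∑ n ∈ Finset.Ico s (s + m), ρ n * Real.cos (n * y) := by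
    refine Finset.sum_congr rfl fun n hn => ?_
    obtain ⟨h1, h2⟩ := Finset.mem_Ico.1 hn
    have h3 := hidx n (Finset.mem_Ico.2 ⟨h1, by omega⟩)
    have h4 : th r w n = bt r w i * n := by
      unfold th
      rw [h3, ← hs, ← hm, if_pos h2, add_zero]
    rw [h4, hphase, Real.cos_add_nat_mul_two_pi]
  have hsum2 : ∑ n ∈ Finset.Ico (s + m) (s + 2 * m), ρ n * Real.cos (n * x + th r w n)
      = ∑ n ∈ Finset.Ico (s + m) (s + 2 * m), ρ n * (-Real.sin (n * y)) := by
    refine Finset.sum_congr rfl fun n hn => ?_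
    obtain ⟨h1, h2⟩ := Finset.mem_Ico.1 hn
    have h3 := hidx n (Finset.mem_Ico.2 ⟨by omega, h2⟩)
    have h4 : th r w n = bt r w i * n + Real.pi / 2 := by
      unfold th
      rw [h3, ← hs, ← hm, if_neg (by omega)]
    rw [h4, ← add_assoc, hphase, Real.cos_add_pi_div_two, Real.sin_add_nat_mul_two_pi]
  -- differences of partial sums
  set S : ℕ → ℝ := fun N => ∑ n ∈ Finset.Icc 1 N, ρ n * Real.cos (n * x + th r w n) with hS
  have hdiff : ∀ u v : ℕ, 1 ≤ u → u ≤ v → S (v - 1) - S (u - 1)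
      = ∑ n ∈ Finset.Ico u v, ρ n * Real.cos (n * x + th r w n) := by
    intro u v hu huv
    have e1 : ∀ w : ℕ, 1 ≤ w → Finset.Icc 1 (w - 1) = Finset.Ico 1 w := by
      intro w hw
      ext j
      simp only [Finset.mem_Icc, Finset.mem_Ico]
      omega
    rw [hS]
    beta_reduce
    rw [e1 u hu, e1 v (hu.trans huv),
      ← Finset.sum_Ico_consecutive (fun n => ρ n * Real.cos (n * x + th r w n)) hu huv]
    ring
  have hdich : ∀ u v : ℕ, N₀ ≤ u → N₀ ≤ v → u ≤ s + 2 * m → v ≤ s + 2 * m →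
      w s / 4 ≤ |S v - S u| → ∃ N ≥ N₀, w N / 16 ≤ |S N| := by
    intro u v hu hv hu2 hv2 huv
    have h1 : w u ≤ 2 * w s := (h.hwm hu2).trans (by rw [← hs']; exact hg2)
    have h2 : w v ≤ 2 * w s := (h.hwm hv2).trans (by rw [← hs']; exact hg2)
    have h3 : |S v - S u| ≤ |S v| + |S u| := abs_sub _ _
    rcases le_total (w s / 8) |S u| with h4 | h4
    · exact ⟨u, hu, by linarith⟩
    · exact ⟨v, hv, by linarith⟩
  rcases one_big (s * y) with hbig | hbig
  · have h1 := half_block (ρ := ρ) (u := s) (v := s + m) (c := Real.cos (s * y))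
      (g := fun n => Real.cos (n * y)) hρ hbig
      (fun n hn => (Real.abs_cos_sub_cos_le _ _).trans
        (hclose n (Finset.mem_Ico.2 ⟨(Finset.mem_Ico.1 hn).1, by
          have := (Finset.mem_Ico.1 hn).2; omega⟩)))
      (q := r s / 2) (fun n hn => hlow n (Finset.mem_Ico.2 ⟨(Finset.mem_Ico.1 hn).1, by
          have := (Finset.mem_Ico.1 hn).2; omega⟩))
    rw [← hsum1, ← hdiff s (s + m) hs1 (by omega)] at h1
    have h3 : ((s + m - s : ℕ) : ℝ) = m := by
      rw [Nat.add_sub_cancel_left]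
    rw [h3] at h1
    exact hdich (s - 1) (s + m - 1) hsN (by omega) (by omega) (by omega) (by linarith)
  · have h1 := half_block (ρ := ρ) (u := s + m) (v := s + 2 * m) (c := -Real.sin (s * y))
      (g := fun n => -Real.sin (n * y)) hρ (by rwa [abs_neg])
      (fun n hn => by
        have h := (Real.abs_sin_sub_sin_le ((n : ℝ) * y) (s * y)).trans
          (hclose n (Finset.mem_Ico.2 ⟨by have := (Finset.mem_Ico.1 hn).1; omega,
            (Finset.mem_Ico.1 hn).2⟩))
        have h' : -Real.sin (n * y) - -Real.sin (s * y)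
            = -(Real.sin (n * y) - Real.sin (s * y)) := by ring
        rw [h', abs_neg]
        exact h)
      (q := r s / 2) (fun n hn => hlow n (Finset.mem_Ico.2 ⟨by
          have := (Finset.mem_Ico.1 hn).1; omega, (Finset.mem_Ico.1 hn).2⟩))
    rw [← hsum2, ← hdiff (s + m) (s + 2 * m) (by omega) (by omega)] at h1
    have h3 : ((s + 2 * m - (s + m) : ℕ) : ℝ) = m := by
      have : s + 2 * m - (s + m) = m := by omega
      rw [this]
    rw [h3] at h1
    exact hdich (s + m - 1) (s + 2 * m - 1) (by omega) (by omega) (by omega) (by omega)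
      (by linarith)

/-- **Abel-Dini.** If `∑ t n = ∞` then `∑ t n / (1 + t 0 + ... + t n) = ∞`. -/
theorem abel_dini {t : ℕ → ℝ} (ht : ∀ n, 0 ≤ t n) (hns : ¬ Summable t) :
    ¬ Summable fun n => t n / (1 + ∑ m ∈ range (n + 1), t m) := by
  intro hs
  have hT : Tendsto (fun n => ∑ m ∈ range n, t m) atTop atTop :=
    (not_summable_iff_tendsto_nat_atTop_of_nonneg ht).1 hns
  have hmono : Monotone fun n => ∑ m ∈ range n, t m := by
    refine monotone_nat_of_le_succ fun n => ?_
    rw [Finset.sum_range_succ]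
    linarith [ht n]
  have hpos : ∀ n, 0 ≤ ∑ m ∈ range n, t m := fun n => Finset.sum_nonneg fun m _ => ht m
  have hc := hs.hasSum.tendsto_sum_nat.cauchySeq
  obtain ⟨A, hA⟩ := Metric.cauchySeq_iff.1 hc (1 / 4) (by norm_num)
  obtain ⟨B, hB⟩ := tendsto_atTop_atTop.1 hT (2 * (1 + ∑ m ∈ range A, t m))
  set D := max A B with hD
  have h1 := hA D (le_max_left _ _) A le_rfl
  have hAD : A ≤ D := le_max_left _ _
  rw [Real.dist_eq, ← Finset.sum_Ico_eq_sub _ hAD] at h1
  have h2 : ∑ n ∈ Ico A D, t n / (1 + ∑ m ∈ range D, t m) ≤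
      ∑ n ∈ Ico A D, t n / (1 + ∑ m ∈ range (n + 1), t m) := by
    refine Finset.sum_le_sum fun n hn => ?_
    have h3 : ∑ m ∈ range (n + 1), t m ≤ ∑ m ∈ range D, t m := hmono (Finset.mem_Ico.1 hn).2
    have h4 := hpos (n + 1)
    exact div_le_div_of_nonneg_left (ht n) (by linarith) (by linarith)
  rw [← Finset.sum_div, Finset.sum_Ico_eq_sub _ hAD] at h2
  have h5 := hB D (le_max_right _ _)
  have h6 := hpos A
  have h7 := hpos D
  have h8 : (1 : ℝ) / 4 ≤ (∑ m ∈ range D, t m - ∑ m ∈ range A, t m) /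
      (1 + ∑ m ∈ range D, t m) := by
    rw [le_div_iff₀ (by linarith)]
    linarith
  have h9 := le_abs_self (∑ n ∈ Ico A D, t n / (1 + ∑ m ∈ range (n + 1), t m))
  linarith

/-- **Phases for large partial sums at every point.** -/
theorem exists_phases {ρ K : ℕ → ℝ} (hρ : ∀ n, 0 ≤ ρ n) (hanti : Antitone ρ)
    (hK : ∀ n, 0 < K n) (hKm : Monotone K) (hns : ¬ Summable fun n => ρ n ^ 2 / K n ^ 2) :
    ∃ θ : ℕ → ℝ, ∀ x C : ℝ, ∃ᶠ N in atTop,
      C * K N < |∑ n ∈ Finset.Icc 1 N, ρ n * Real.cos (n * x + θ n)| := by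
  have hpos : ∀ n, 0 < ρ n := by
    intro n
    by_contra hcon
    have h0 : ρ n = 0 := le_antisymm (not_lt.1 hcon) (hρ n)
    refine hns ?_
    refine summable_of_ne_finset_zero (s := Finset.range n) fun m hm => ?_
    have h1 : n ≤ m := by simpa using hm
    have h2 : ρ m = 0 := le_antisymm (h0 ▸ hanti h1) (hρ m)
    rw [h2]
    simp
  have hc0 : 0 < 1 + ρ 0 := by linarith [hρ 0]
  set r : ℕ → ℝ := fun n => ρ n / (1 + ρ 0) with hr
  set t : ℕ → ℝ := fun n => r n ^ 2 / (K n / K 0) ^ 2 with htdef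
  have ht0 : ∀ n, 0 ≤ t n := fun n => by positivity
  have htns : ¬ Summable t := by
    intro hs
    refine hns ?_
    have h1 := hs.mul_left ((1 + ρ 0) ^ 2 / K 0 ^ 2)
    refine h1.congr fun n => ?_
    rw [htdef, hr]
    beta_reduce
    have h2 := (hK n).ne'
    have h3 := (hK 0).ne'
    field_simp
  set T : ℕ → ℝ := fun n => ∑ m ∈ range (n + 1), t m with hT
  have hTpos : ∀ n, 0 ≤ T n := fun n => Finset.sum_nonneg fun m _ => ht0 m
  have hTmono : Monotone T := by
    refine monotone_nat_of_le_succ fun n => ?_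
    rw [hT]
    beta_reduce
    rw [Finset.sum_range_succ _ (n + 1)]
    linarith [ht0 (n + 1)]
  have hTlim : Tendsto T atTop atTop :=
    ((not_summable_iff_tendsto_nat_atTop_of_nonneg ht0).1 htns).comp (tendsto_add_atTop_nat 1)
  set w : ℕ → ℝ := fun n => K n / K 0 * √(1 + T n) with hw
  have hsq1 : ∀ n, 1 ≤ √(1 + T n) := fun n => by
    rw [Real.one_le_sqrt]
    linarith [hTpos n]
  have hK1 : ∀ n, 1 ≤ K n / K 0 := fun n => by
    rw [one_le_div (hK 0)]
    exact hKm (Nat.zero_le n)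
  have hadm : Adm r w := by
    refine ⟨fun n => div_pos (hpos n) hc0, fun n => ?_, fun a b hab => ?_, fun n => ?_,
      fun a b hab => ?_⟩
    · rw [hr]
      beta_reduce
      rw [div_le_one hc0]
      linarith [hanti (Nat.zero_le n)]
    · exact div_le_div_of_nonneg_right (hanti hab) hc0.le
    · exact one_le_mul_of_one_le_of_one_le (hK1 n) (hsq1 n)
    · refine mul_le_mul (div_le_div_of_nonneg_right (hKm hab) (hK 0).le)
        (Real.sqrt_le_sqrt (by linarith [hTmono hab])) (Real.sqrt_nonneg _)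
        (div_nonneg (hK b).le (hK 0).le)
  have hrρ : ∀ n, r n ≤ ρ n := fun n => div_le_self (hρ n) (by linarith [hρ 0])
  have hwns : ¬ Summable fun n => r n ^ 2 / w n ^ 2 := by
    have h1 := abel_dini ht0 htns
    intro hs
    refine h1 (hs.congr fun n => ?_)
    rw [htdef, hw]
    beta_reduce
    rw [mul_pow, Real.sq_sqrt (by linarith [hTpos n]), hT]
    beta_reduce
    rw [div_div]
  refine ⟨th r w, fun x C => ?_⟩
  rw [Filter.frequently_atTop]
  intro N₀
  obtain ⟨N₁, hN₁⟩ := tendsto_atTop_atTop.1 hTlim ((16 * K 0 * |C|) ^ 2 + 1)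
  obtain ⟨N, hN, hlarge⟩ := large hρ hrρ hadm hwns x (max N₀ N₁)
  refine ⟨N, (le_max_left _ _).trans hN, lt_of_lt_of_le ?_ hlarge⟩
  have h1 := hN₁ N ((le_max_right _ _).trans hN)
  have h2 : 16 * K 0 * |C| < √(1 + T N) := by
    refine Real.lt_sqrt_of_sq_lt ?_
    linarith
  have h3 := hK 0
  have h4 := hK N
  have h5 : C * K N ≤ |C| * K N := mul_le_mul_of_nonneg_right (le_abs_self C) h4.le
  refine h5.trans_lt ?_
  rw [hw]
  beta_reduce
  have h6 : |C| * K N = K N / K 0 * (16 * K 0 * |C|) / 16 := by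
    field_simp
  rw [h6]
  have h7 : 0 < K N / K 0 := div_pos h4 h3
  have h8 := mul_lt_mul_of_pos_left h2 h7
  linarith

/-- **Main result.**

(1) Let `ρ 0 ≥ ρ 1 ≥ … ≥ 0` and let `0 < K 0 ≤ K 1 ≤ …` with `∑ ρ n ^ 2 / K n ^ 2 = ∞`.  There is a
real trigonometric series `∑ (a n cos n x + b n sin n x)` with amplitudes
`√(a n ^ 2 + b n ^ 2) = ρ n` such that for EVERY real `x` and every `C` there are infinitely many `N`
with `|S_N(x)| > C * K N`.

(2) Let `ρ 0 ≥ ρ 1 ≥ … ≥ 0` with `∑ ρ n ^ 2 = ∞`.  There is such a series with amplitudes `ρ n`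
such that at every real `x` and for every `C` one has `|S_N(x)| > C * √(ρ 1 ^ 2 + … + ρ N ^ 2)` for
infinitely many `N`; in particular the partial sums are unbounded at every point.

(3) There is a real trigonometric series with `a n ^ 2 + b n ^ 2 = 1 / n` for all `n ≥ 1`, so that
`∑ (|a n| ^ (2 + ε) + |b n| ^ (2 + ε)) < ∞` for every `ε > 0`, such that at every real `x` and for
every `C` one has `|S_N(x)| > C * √(log N)` for infinitely many `N`; in particular it diverges
everywhere. -/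
theorem result :
    (∀ ρ K : ℕ → ℝ, (∀ n, 0 ≤ ρ n) → Antitone ρ → (∀ n, 0 < K n) → Monotone K →
      (¬ Summable fun n => ρ n ^ 2 / K n ^ 2) →
      ∃ a b : ℕ → ℝ, (∀ n, √(a n ^ 2 + b n ^ 2) = ρ n) ∧
        ∀ x C : ℝ, ∃ᶠ N in atTop, C * K N < |partialSum a b N x|) ∧
    (∀ ρ : ℕ → ℝ, (∀ n, 0 ≤ ρ n) → Antitone ρ → (¬ Summable fun n => ρ n ^ 2) →
      ∃ a b : ℕ → ℝ, (∀ n, √(a n ^ 2 + b n ^ 2) = ρ n) ∧
        ∀ x C : ℝ, ∃ᶠ N in atTop,
          C * √(∑ n ∈ Finset.Icc 1 N, ρ n ^ 2) < |partialSum a b N x|) ∧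
    ∃ a b : ℕ → ℝ, (∀ n : ℕ, 1 ≤ n → a n ^ 2 + b n ^ 2 = 1 / n) ∧
      (∀ ε : ℝ, 0 < ε → Summable fun n => |a n| ^ (2 + ε) + |b n| ^ (2 + ε)) ∧
      (∀ x C : ℝ, ∃ᶠ N : ℕ in atTop, C * √(Real.log N) < |partialSum a b N x|) ∧
      ∀ x : ℝ, ¬ ∃ L : ℝ, Tendsto (fun N => partialSum a b N x) atTop (𝓝 L) := by
  have gen : ∀ ρ K : ℕ → ℝ, (∀ n, 0 ≤ ρ n) → Antitone ρ → (∀ n, 0 < K n) → Monotone K →
      (¬ Summable fun n => ρ n ^ 2 / K n ^ 2) →
      ∃ a b : ℕ → ℝ, (∀ n, √(a n ^ 2 + b n ^ 2) = ρ n) ∧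
        ∀ x C : ℝ, ∃ᶠ N in atTop, C * K N < |partialSum a b N x| := by
    intro ρ K hρ hanti hK hKm hns
    obtain ⟨θ, hθ⟩ := exists_phases hρ hanti hK hKm hns
    refine ⟨fun n => ρ n * Real.cos (θ n), fun n => -(ρ n * Real.sin (θ n)), fun n => ?_,
      fun x C => ?_⟩
    · have : (ρ n * Real.cos (θ n)) ^ 2 + (-(ρ n * Real.sin (θ n))) ^ 2 = ρ n ^ 2 := by
        have h := Real.sin_sq_add_cos_sq (θ n)
        calc (ρ n * Real.cos (θ n)) ^ 2 + (-(ρ n * Real.sin (θ n))) ^ 2
            = ρ n ^ 2 * (Real.sin (θ n) ^ 2 + Real.cos (θ n) ^ 2) := by ring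
          _ = ρ n ^ 2 := by rw [h, mul_one]
      beta_reduce
      rw [this, Real.sqrt_sq (hρ n)]
    · refine (hθ x C).mono fun N hN => ?_
      convert hN using 2
      unfold partialSum
      refine Finset.sum_congr rfl fun n _ => ?_
      rw [Real.cos_add]
      ring
  have norm2 : ∀ ρ : ℕ → ℝ, (∀ n, 0 ≤ ρ n) → Antitone ρ → (¬ Summable fun n => ρ n ^ 2) →
      ∃ a b : ℕ → ℝ, (∀ n, √(a n ^ 2 + b n ^ 2) = ρ n) ∧
        ∀ x C : ℝ, ∃ᶠ N in atTop,
          C * √(∑ n ∈ Finset.Icc 1 N, ρ n ^ 2) < |partialSum a b N x| := by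
    intro ρ hρ hanti hns
    have hpos : ∀ n, 0 ≤ ∑ m ∈ range (n + 1), ρ m ^ 2 := fun n =>
      Finset.sum_nonneg fun m _ => sq_nonneg _
    obtain ⟨a, b, hab, hbig⟩ := gen ρ (fun n => √(1 + ∑ m ∈ range (n + 1), ρ m ^ 2)) hρ hanti
      (fun n => Real.sqrt_pos.2 (by linarith [hpos n]))
      (fun u v huv => Real.sqrt_le_sqrt (by
        have : ∑ m ∈ range (u + 1), ρ m ^ 2 ≤ ∑ m ∈ range (v + 1), ρ m ^ 2 :=
          Finset.sum_le_sum_of_subset_of_nonneg (Finset.range_mono (by omega))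
            fun _ _ _ => sq_nonneg _
        linarith))
      (by
        have h1 := abel_dini (t := fun n => ρ n ^ 2) (fun n => sq_nonneg _) hns
        intro hs
        refine h1 (hs.congr fun n => ?_)
        rw [Real.sq_sqrt (by linarith [hpos n])])
    refine ⟨a, b, hab, fun x C => ?_⟩
    refine (hbig x |C|).mono fun N hN => lt_of_le_of_lt ?_ hN
    refine mul_le_mul (le_abs_self C) (Real.sqrt_le_sqrt ?_) (Real.sqrt_nonneg _) (abs_nonneg _)
    have h2 : ∑ n ∈ Finset.Icc 1 N, ρ n ^ 2 ≤ ∑ m ∈ range (N + 1), ρ m ^ 2 := by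
      refine Finset.sum_le_sum_of_subset_of_nonneg (fun n hn => ?_) fun _ _ _ => sq_nonneg _
      rw [Finset.mem_Icc] at hn
      rw [Finset.mem_range]
      omega
    linarith
  refine ⟨gen, norm2, ?_⟩
  set ρ : ℕ → ℝ := fun n => √(1 / max (n : ℝ) 1) with hρdef
  have hρ0 : ∀ n, 0 ≤ ρ n := fun n => Real.sqrt_nonneg _
  have hanti : Antitone ρ := by
    intro m n hmn
    refine Real.sqrt_le_sqrt ?_
    have : (m : ℝ) ≤ n := by exact_mod_cast hmn
    exact one_div_le_one_div_of_le (by positivity) (max_le_max this le_rfl)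
  have hsq : ∀ n, ρ n ^ 2 = 1 / max (n : ℝ) 1 := fun n => Real.sq_sqrt (by positivity)
  have hsq1 : ∀ n : ℕ, 1 ≤ n → ρ n ^ 2 = 1 / n := fun n hn => by
    rw [hsq, max_eq_left (by exact_mod_cast hn)]
  have hns : ¬ Summable fun n => ρ n ^ 2 := by
    intro hs
    refine Real.not_summable_one_div_natCast ((summable_nat_add_iff 1).1 ?_)
    have h1 := (summable_nat_add_iff 1).2 hs
    refine h1.congr fun n => ?_
    rw [hsq1 (n + 1) (by omega)]
  obtain ⟨a, b, hab, hbig⟩ := norm2 ρ hρ0 hanti hns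
  have hab2 : ∀ n, a n ^ 2 + b n ^ 2 = ρ n ^ 2 := fun n => by
    rw [← hab n, Real.sq_sqrt (by positivity)]
  have hlog : ∀ x C : ℝ, ∃ᶠ N : ℕ in atTop, C * √(Real.log N) < |partialSum a b N x| := by
    intro x C
    refine ((hbig x |C|).and_eventually (eventually_ge_atTop 1)).mono fun N hN => ?_
    refine lt_of_le_of_lt ?_ hN.1
    refine mul_le_mul (le_abs_self C) (Real.sqrt_le_sqrt ?_) (Real.sqrt_nonneg _) (abs_nonneg _)
    have h1 : ∑ n ∈ Finset.Icc 1 N, ρ n ^ 2 = ((harmonic N : ℚ) : ℝ) := by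
      rw [harmonic_eq_sum_Icc]
      push_cast
      refine Finset.sum_congr rfl fun n hn => ?_
      rw [hsq1 n (Finset.mem_Icc.1 hn).1, one_div]
    rw [h1]
    have h2 := log_add_one_le_harmonic N
    refine le_trans (Real.log_le_log (by exact_mod_cast hN.2) ?_) h2
    push_cast
    linarith
  refine ⟨a, b, fun n hn => by rw [hab2, hsq1 n hn], fun ε hε => ?_, hlog, ?_⟩
  · have ha : ∀ n, |a n| ≤ ρ n := by
      intro n
      rw [← hab n]
      exact Real.abs_le_sqrt (by nlinarith [sq_nonneg (b n)])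
    have hb : ∀ n, |b n| ≤ ρ n := by
      intro n
      rw [← hab n]
      exact Real.abs_le_sqrt (by nlinarith [sq_nonneg (a n)])
    rw [← summable_nat_add_iff 1]
    have hpow : ∀ n : ℕ, ρ (n + 1) ^ (2 + ε) = 1 / (((n + 1 : ℕ) : ℝ)) ^ (1 + ε / 2) := by
      intro n
      rw [hρdef]
      beta_reduce
      have h1 : max (((n + 1 : ℕ) : ℝ)) 1 = ((n + 1 : ℕ) : ℝ) := by
        apply max_eq_left
        push_cast
        have : (0 : ℝ) ≤ n := Nat.cast_nonneg n
        linarith
      rw [h1, Real.sqrt_eq_rpow, ← Real.rpow_mul (by positivity), Real.div_rpow (by norm_num)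
        (by positivity), Real.one_rpow]
      congr 2
      ring
    have hmain : Summable fun n : ℕ => 2 * (1 / (((n + 1 : ℕ) : ℝ)) ^ (1 + ε / 2)) := by
      refine Summable.mul_left 2 ?_
      have h := (Real.summable_one_div_nat_rpow (p := 1 + ε / 2)).2 (by linarith)
      exact (summable_nat_add_iff 1).2 h
    refine Summable.of_nonneg_of_le (fun n => by positivity) (fun n => ?_) hmain
    rw [← hpow]
    have h1 : |a (n + 1)| ^ (2 + ε) ≤ ρ (n + 1) ^ (2 + ε) :=
      Real.rpow_le_rpow (abs_nonneg _) (ha _) (by linarith)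
    have h2 : |b (n + 1)| ^ (2 + ε) ≤ ρ (n + 1) ^ (2 + ε) :=
      Real.rpow_le_rpow (abs_nonneg _) (hb _) (by linarith)
    linarith
  · rintro x ⟨L, hL⟩
    have h1 : ∀ᶠ N in atTop, |partialSum a b N x| ≤ |L| + 1 := by
      have h2 := hL.abs
      exact (h2.eventually (gt_mem_nhds (lt_add_one |L|))).mono fun N hN => hN.le
    have h3 : ∀ᶠ N : ℕ in atTop, (1 : ℝ) ≤ √(Real.log N) := by
      have h4 : Tendsto (fun N : ℕ => Real.log N) atTop atTop :=
        Real.tendsto_log_atTop.comp tendsto_natCast_atTop_atTop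
      refine (h4.eventually (eventually_ge_atTop 1)).mono fun N hN => ?_
      rwa [Real.one_le_sqrt]
    obtain ⟨N, hN, h5, h6⟩ := ((hlog x (|L| + 1)).and_eventually (h1.and h3)).exists
    have h7 : (|L| + 1) * 1 ≤ (|L| + 1) * √(Real.log N) :=
      mul_le_mul_of_nonneg_left h6 (by positivity)
    linarith

end Pool.Agent.Results.MP_85199e_an.LargePartialSums
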