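import Pool.Agent.KS6_89.AB.B3

/-!
# MP_85199e_an: trigonometric series with coefficients close to `ℓ²` that are nowhere Abel summable

For every function `ω ≥ 0` with `ω t = o (t ^ 2)` as `t → 0` there are real coefficients with
`∑ (ω |a n| + ω |b n|) < ∞` and `∑ (|a n| ^ (2 + ε) + |b n| ^ (2 + ε)) < ∞` for all `ε > 0` such that
the Abel means of the trigonometric series, of its conjugate series, and of all the combinations
`cos θ · series - sin θ · conjugate series`, are unbounded at EVERY point, uniformly in the point and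
in `θ`. So the series is Abel summable (hence Cesàro summable of any order, hence convergent) at no
point.
-/

set_option autoImplicit false

open Filter Topology Finset Asymptotics

namespace Pool.Agent.Results.MP_85199e_an.NowhereAbelSummable

/-- The Abel mean of radius `r` at the point `x` of the series
`∑_{n ≥ 1} (a n cos (n x + θ) + b n sin (n x + θ))`; for `θ = 0` this is the trigonometric series
with coefficients `a`, `b`, for `θ = - π / 2` it is its conjugate series
`∑_{n ≥ 1} (a n sin (n x) - b n cos (n x))`. -/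
noncomputable def abelMean (a b : ℕ → ℝ) (θ r x : ℝ) : ℝ :=
  ∑' n : ℕ, (a (n + 1) * Real.cos ((n + 1 : ℕ) * x + θ) + b (n + 1) * Real.sin ((n + 1 : ℕ) * x + θ))
    * r ^ (n + 1)

/-- The partial sums `∑_{n = 1}^N (a n cos (n x + θ) + b n sin (n x + θ))`. -/
noncomputable def partialSum (a b : ℕ → ℝ) (θ : ℝ) (N : ℕ) (x : ℝ) : ℝ :=
  ∑ n ∈ Finset.Icc 1 N, (a n * Real.cos (n * x + θ) + b n * Real.sin (n * x + θ))

/-- Abel means are bounded by the partial sums -/
lemma abel_le (u : ℕ → ℝ) (K r : ℝ) (h0 : 0 < r) (h1 : r < 1)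
    (hK : ∀ N, |∑ n ∈ range N, u n| ≤ K) (hs : Summable (fun n => u n * r ^ n)) :
    |∑' n, u n * r ^ n| ≤ K := by
  have hpart : ∀ N, ∑ n ∈ range N, u n * r ^ n
      = ∑ n ∈ range N, (r ^ n - r ^ (n + 1)) * (∑ k ∈ range (n + 1), u k)
        + r ^ N * ∑ k ∈ range N, u k := by
    intro N
    induction N with
    | zero => simp
    | succ N ih =>
      rw [Finset.sum_range_succ, ih, Finset.sum_range_succ (fun n => (r ^ n - r ^ (n + 1)) * _)]
      have : ∑ k ∈ range (N + 1), u k = ∑ k ∈ range N, u k + u N := Finset.sum_range_succ _ _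
      rw [this, pow_succ]
      ring
  have hle : ∀ N, |∑ n ∈ range N, u n * r ^ n| ≤ K := by
    intro N
    rw [hpart]
    have hd : ∀ n : ℕ, 0 ≤ r ^ n - r ^ (n + 1) := by
      intro n
      have : r ^ (n + 1) ≤ r ^ n := pow_le_pow_of_le_one h0.le h1.le (by omega)
      linarith
    have e1 : |∑ n ∈ range N, (r ^ n - r ^ (n + 1)) * (∑ k ∈ range (n + 1), u k)|
        ≤ ∑ n ∈ range N, (r ^ n - r ^ (n + 1)) * K := by
      refine (Finset.abs_sum_le_sum_abs _ _).trans (Finset.sum_le_sum fun n _ => ?_)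
      rw [abs_mul, abs_of_nonneg (hd n)]
      exact mul_le_mul_of_nonneg_left (hK _) (hd n)
    have e2 : |r ^ N * ∑ k ∈ range N, u k| ≤ r ^ N * K := by
      rw [abs_mul, abs_of_pos (by positivity)]
      exact mul_le_mul_of_nonneg_left (hK _) (by positivity)
    have e3 : ∑ n ∈ range N, (r ^ n - r ^ (n + 1)) * K = (1 - r ^ N) * K := by
      rw [← Finset.sum_mul]
      congr 1
      rw [Finset.sum_range_sub' (fun n => r ^ n)]
      simp
    refine (abs_add_le _ _).trans ?_
    rw [e3] at e1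
    nlinarith
  have ht := (hs.hasSum.tendsto_sum_nat).abs
  exact le_of_tendsto' ht hle

/-- **Nowhere Abel summable trigonometric series.** Let `ω ≥ 0` be any function with
`ω t = o (t ^ 2)` as `t → 0`. There are real sequences `a`, `b` such that
* `∑ (|a n| ^ (2 + ε) + |b n| ^ (2 + ε)) < ∞` for every `ε > 0`, and `∑ (ω |a n| + ω |b n|) < ∞`;
* for all `K` and `ρ < 1` there is `R < 1` such that for all real `x` and `θ` some `r ∈ (ρ, R]` has
  `|abelMean a b θ r x| > K`: the Abel means are unbounded at every point, uniformly;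
* at every point the partial sums are unbounded, and they have no finite limit;
* at every point the Abel means have no finite limit. -/
theorem result (ω : ℝ → ℝ) (hω0 : ∀ t, 0 ≤ ω t) (hω : ω =o[𝓝 0] fun t : ℝ => t ^ 2) :
    ∃ a b : ℕ → ℝ,
      (∀ ε : ℝ, 0 < ε → Summable fun n : ℕ => |a n| ^ (2 + ε) + |b n| ^ (2 + ε)) ∧
      (Summable fun n : ℕ => ω |a n| + ω |b n|) ∧
      (∀ K ρ : ℝ, ρ < 1 → ∃ R : ℝ, R < 1 ∧ ∀ x θ : ℝ, ∃ r : ℝ, 0 < r ∧ ρ < r ∧ r ≤ R ∧
        K < |abelMean a b θ r x|) ∧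
      (∀ x θ : ℝ, ¬ ∃ l : ℝ, Tendsto (fun r => abelMean a b θ r x) (𝓝[<] 1) (𝓝 l)) ∧
      (∀ x θ K : ℝ, ∃ N : ℕ, K < |partialSum a b θ N x|) ∧
      ∀ x θ : ℝ, ¬ ∃ l : ℝ, Tendsto (fun N : ℕ => partialSum a b θ N x) atTop (𝓝 l) := by
  obtain ⟨c, hc0, hc1, hc2, hc3, hc4⟩ := Pool.Agent.KS6_89.AB.main ω hω0 hω
  set a : ℕ → ℝ := fun n => (c n).re with ha
  set b : ℕ → ℝ := fun n => -(c n).im with hb
  have ha1 : ∀ n, |a n| ≤ 1 := fun n => (Complex.abs_re_le_norm _).trans (hc1 n)
  have hb1 : ∀ n, |b n| ≤ 1 := fun n => by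
    rw [hb]; simp only [abs_neg]
    exact (Complex.abs_im_le_norm _).trans (hc1 n)
  -- the terms
  have hterm : ∀ (n : ℕ) (x θ : ℝ), |a n * Real.cos (n * x + θ) + b n * Real.sin (n * x + θ)| ≤ 2 := by
    intro n x θ
    refine (abs_add_le _ _).trans ?_
    rw [abs_mul, abs_mul]
    have e1 := ha1 n
    have e2 := hb1 n
    have e3 := Real.abs_cos_le_one (n * x + θ)
    have e4 := Real.abs_sin_le_one (n * x + θ)
    nlinarith [abs_nonneg (a n), abs_nonneg (b n), abs_nonneg (Real.cos (n * x + θ)),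
      abs_nonneg (Real.sin (n * x + θ))]
  have hsumm : ∀ r x θ : ℝ, 0 < r → r < 1 → Summable (fun n : ℕ =>
      (a n * Real.cos (n * x + θ) + b n * Real.sin (n * x + θ)) * r ^ n) := by
    intro r x θ h0 h1
    apply Summable.of_norm_bounded (g := fun n => 2 * r ^ n)
      ((summable_geometric_of_lt_one h0.le h1).mul_left 2)
    intro n
    rw [Real.norm_eq_abs, abs_mul, abs_of_pos (show 0 < r ^ n by positivity)]
    exact mul_le_mul_of_nonneg_right (hterm n x θ) (by positivity)
  have ha0 : a 0 = 0 := by rw [ha]; simp [hc0]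
  have hb0 : b 0 = 0 := by rw [hb]; simp [hc0]
  have habel : ∀ r x θ : ℝ, 0 < r → r < 1 → abelMean a b θ r x
      = ∑' n : ℕ, (a n * Real.cos (n * x + θ) + b n * Real.sin (n * x + θ)) * r ^ n := by
    intro r x θ h0 h1
    unfold abelMean
    rw [(hsumm r x θ h0 h1).tsum_eq_zero_add]
    simp [ha0, hb0]
  -- relation with the power series
  have hcx : ∀ r x θ : ℝ, 0 < r → r < 1 → abelMean a b θ r x
      = (Complex.exp (θ * Complex.I) * ∑' n, c n * (r * Complex.exp (x * Complex.I)) ^ n).re := by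
    intro r x θ h0 h1
    rw [habel r x θ h0 h1]
    have hs : Summable (fun n => c n * ((r : ℂ) * Complex.exp (x * Complex.I)) ^ n) := by
      apply Summable.of_norm_bounded (g := fun n => r ^ n) (summable_geometric_of_lt_one h0.le h1)
      intro n
      rw [norm_mul, norm_pow, norm_mul, Complex.norm_exp_ofReal_mul_I, mul_one, Complex.norm_real,
        Real.norm_eq_abs, abs_of_pos h0]
      have := hc1 n
      have h5 : 0 ≤ r ^ n := by positivity
      nlinarith
    rw [← tsum_mul_left, Complex.re_tsum (hs.mul_left _)]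
    apply tsum_congr
    intro n
    have e1 : Complex.exp (θ * Complex.I) * (c n * ((r : ℂ) * Complex.exp (x * Complex.I)) ^ n)
        = ((r ^ n : ℝ) : ℂ) * (c n * Complex.exp (((n * x + θ : ℝ) : ℂ) * Complex.I)) := by
      rw [mul_pow, ← Complex.exp_nat_mul]
      have : Complex.exp (((n * x + θ : ℝ) : ℂ) * Complex.I)
          = Complex.exp (θ * Complex.I) * Complex.exp (n * (x * Complex.I)) := by
        rw [← Complex.exp_add]
        congr 1
        push_cast
        ring
      rw [this]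
      push_cast
      ring
    rw [e1, Complex.re_ofReal_mul, Complex.mul_re, Complex.exp_ofReal_mul_I_re,
      Complex.exp_ofReal_mul_I_im, ha, hb]
    ring
  have hunb : ∀ K ρ : ℝ, ρ < 1 → ∃ R : ℝ, R < 1 ∧ ∀ x θ : ℝ, ∃ r : ℝ, 0 < r ∧ ρ < r ∧ r ≤ R ∧
        K < |abelMean a b θ r x| := by
    intro K ρ hρ
    obtain ⟨R, hR1, hR⟩ := hc4 K ρ hρ
    refine ⟨R, hR1, fun x θ => ?_⟩
    obtain ⟨r, hr0, hr1, hr2, hr3⟩ := hR (Complex.exp (x * Complex.I)) (Complex.exp (θ * Complex.I))
      (Complex.norm_exp_ofReal_mul_I x) (Complex.norm_exp_ofReal_mul_I θ)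
    refine ⟨r, hr0, hr1, hr2, ?_⟩
    rw [hcx r x θ hr0 (hr2.trans_lt hR1)]
    exact hr3
  have hps : ∀ x θ K : ℝ, ∃ N : ℕ, K < |partialSum a b θ N x| := by
    intro x θ K
    by_contra hcon
    push Not at hcon
    obtain ⟨R, hR1, hR⟩ := hunb K 0 one_pos
    obtain ⟨r, hr0, hr1, hr2, hr3⟩ := hR x θ
    have hr4 : r < 1 := hr2.trans_lt hR1
    rw [habel r x θ hr0 hr4] at hr3
    have hK : ∀ N, |∑ n ∈ range N, (a n * Real.cos (n * x + θ) + b n * Real.sin (n * x + θ))|
        ≤ K := by
      intro N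
      rcases Nat.eq_zero_or_pos N with rfl | hN
      · have := hcon 0
        unfold partialSum at this
        simpa using this
      · have := hcon (N - 1)
        unfold partialSum at this
        obtain ⟨m, rfl⟩ : ∃ m, N = m + 1 := ⟨N - 1, by omega⟩
        rw [Finset.sum_range_succ', ha0, hb0]
        rw [Nat.add_sub_cancel] at this
        rw [Finset.range_eq_Ico, Finset.sum_Ico_add' (fun n : ℕ =>
          (a n * Real.cos (n * x + θ) + b n * Real.sin (n * x + θ)))]
        have e : Finset.Ico (0 + 1) (m + 1) = Finset.Icc 1 m := by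
          ext k; simp only [Finset.mem_Ico, Finset.mem_Icc]; omega
        rw [e]
        simpa using this
    have := abel_le _ K r hr0 hr4 hK (hsumm r x θ hr0 hr4)
    linarith
  refine ⟨a, b, ?_, ?_, hunb, ?_, hps, ?_⟩
  · intro ε hε
    refine (hc2 ε hε).congr fun n => ?_
    rw [ha, hb]
    simp only [abs_neg]
  · refine hc3.congr fun n => ?_
    rw [ha, hb]
    simp only [abs_neg]
  · rintro x θ ⟨l, hl⟩
    have h1 : ∀ᶠ r in 𝓝[<] (1 : ℝ), |abelMean a b θ r x - l| < 1 := by
      have := (Metric.tendsto_nhds.1 hl) 1 one_pos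
      simpa [Real.dist_eq] using this
    rw [eventually_nhdsWithin_iff] at h1
    obtain ⟨δ, hδ, h2⟩ := Metric.eventually_nhds_iff.1 h1
    obtain ⟨R, hR1, hR⟩ := hunb (|l| + 1) (1 - δ) (by linarith)
    obtain ⟨r, hr0, hr1, hr2, hr3⟩ := hR x θ
    have hr4 : r < 1 := hr2.trans_lt hR1
    have h3 := h2 (y := r) (by
      rw [Real.dist_eq, abs_sub_comm, abs_of_pos (by linarith)]
      linarith) hr4
    have h4 := abs_sub_abs_le_abs_sub (abelMean a b θ r x) l
    linarith
  · rintro x θ ⟨l, hl⟩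
    obtain ⟨K, hK⟩ := hl.abs.bddAbove_range
    obtain ⟨N, hN⟩ := hps x θ K
    have h1 : |partialSum a b θ N x| ≤ K := hK (Set.mem_range_self N)
    linarith

end Pool.Agent.Results.MP_85199e_an.NowhereAbelSummable
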